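import Mathlib
import Pool.Agent.Helper44.HeightDoubling

/-!
The logarithmic-derivative homomorphism `(x, y) ↦ (3 y x' - 2 x y') / (3 A²)` on the points of
`y² = x³ + A²`, and maps between the groups of points of such curves.
-/

namespace Pool.Agent.Helper44.MW

open Pool.Agent.Helper44

/-- Points of `y² = x³ + A²`. -/
abbrev Pt {K : Type*} [Field K] (A : K) := (mordell (A ^ 2)).toAffine.Point

section

variable {K : Type*} [Field K]

lemma negY_mordell (a x y : K) : (mordell a).toAffine.negY x y = -y := by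
  simp [WeierstrassCurve.Affine.negY, mordell]

variable [DecidableEq K]

/-- Case distinction for the sum of two affine points. -/
lemma add_cases {A x₁ y₁ x₂ y₂ : K} (h2 : (2 : K) ≠ 0)
    (h₁ : (mordell (A ^ 2)).toAffine.Nonsingular x₁ y₁)
    (h₂ : (mordell (A ^ 2)).toAffine.Nonsingular x₂ y₂) :
    (x₁ = x₂ ∧ y₁ = -y₂ ∧
      (WeierstrassCurve.Affine.Point.some x₁ y₁ h₁ : Pt A) + .some x₂ y₂ h₂ = 0) ∨
    (¬ (x₁ = x₂ ∧ y₁ = -y₂) ∧ ∃ ℓ x₃ y₃ : K,
      (ℓ * (y₁ + y₂) = x₁ ^ 2 + x₁ * x₂ + x₂ ^ 2) ∧ (y₂ - y₁ = ℓ * (x₂ - x₁)) ∧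
      x₃ = ℓ ^ 2 - x₁ - x₂ ∧ y₃ = -(y₁ + ℓ * (x₃ - x₁)) ∧
      ∃ h₃ : (mordell (A ^ 2)).toAffine.Nonsingular x₃ y₃,
      (WeierstrassCurve.Affine.Point.some x₁ y₁ h₁ : Pt A) + .some x₂ y₂ h₂ = .some x₃ y₃ h₃) := by
  by_cases h : x₁ = x₂ ∧ y₁ = -y₂
  · left
    refine ⟨h.1, h.2, ?_⟩
    apply WeierstrassCurve.Affine.Point.add_of_Y_eq h.1
    rw [negY_mordell]; exact h.2
  · right
    refine ⟨h, ?_⟩
    have h' : ¬ (x₁ = x₂ ∧ y₁ = (mordell (A ^ 2)).toAffine.negY x₂ y₂) := by
      rw [negY_mordell]; exact h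
    have e₁ : y₁ ^ 2 = x₁ ^ 3 + A ^ 2 := (mordell_equation _ _ _).1 h₁.1
    have e₂ : y₂ ^ 2 = x₂ ^ 3 + A ^ 2 := (mordell_equation _ _ _).1 h₂.1
    refine ⟨(mordell (A ^ 2)).toAffine.slope x₁ x₂ y₁ y₂, _, _, ?_, ?_, ?_, ?_, _,
      WeierstrassCurve.Affine.Point.add_some h'⟩
    · by_cases hx : x₁ = x₂
      · subst hx
        have hy : y₁ ≠ (mordell (A ^ 2)).toAffine.negY x₁ y₂ := fun hh => h' ⟨rfl, hh⟩
        have hyy : y₁ = y₂ := by
          have : (y₁ - y₂) * (y₁ + y₂) = 0 := by linear_combination e₁ - e₂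
          rcases mul_eq_zero.1 this with h | h
          · exact sub_eq_zero.1 h
          · exact absurd (show y₁ = -y₂ by linear_combination h) (by rwa [negY_mordell] at hy)
        subst hyy
        rw [WeierstrassCurve.Affine.slope_of_Y_ne rfl hy, negY_mordell]
        simp only [mordell]
        rw [negY_mordell] at hy
        have hy0 : y₁ ≠ 0 := by
          rintro rfl
          exact hy (by simp)
        have e : y₁ - -y₁ = 2 * y₁ := by ring
        rw [e]
        field_simp
        ring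
      · rw [WeierstrassCurve.Affine.slope_of_X_ne hx]
        have : x₁ - x₂ ≠ 0 := sub_ne_zero.2 hx
        field_simp
        linear_combination e₁ - e₂
    · by_cases hx : x₁ = x₂
      · subst hx
        have hyy : y₁ = y₂ := by
          have : (y₁ - y₂) * (y₁ + y₂) = 0 := by linear_combination e₁ - e₂
          rcases mul_eq_zero.1 this with h0 | h0
          · exact sub_eq_zero.1 h0
          · exact absurd ⟨rfl, show y₁ = -y₂ by linear_combination h0⟩ h
        rw [hyy]; ring
      · rw [WeierstrassCurve.Affine.slope_of_X_ne hx]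
        have : x₁ - x₂ ≠ 0 := sub_ne_zero.2 hx
        field_simp
        ring
    · simp [WeierstrassCurve.Affine.addX, mordell]
    · simp [WeierstrassCurve.Affine.addY, WeierstrassCurve.Affine.negAddY,
        WeierstrassCurve.Affine.negY, mordell]
      try ring

end

section lam

variable {R K : Type*} [CommRing R] [Field K] [Algebra R K]

/-- The homomorphism `(x, y) ↦ (3 y x' - 2 x y') / (3 A²)`. -/
noncomputable def lam (D : Derivation R K K) (A : K) : Pt A → K
  | .zero => 0
  | .some x y _ => (3 * y * D x - 2 * x * D y) / (3 * A ^ 2)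

@[simp] lemma lam_zero (D : Derivation R K K) (A : K) : lam D A 0 = 0 := rfl

variable [DecidableEq K]

theorem lam_add (D : Derivation R K K) (A : K) (h2 : (2 : K) ≠ 0) (P Q : Pt A) :
    lam D A (P + Q) = lam D A P + lam D A Q := by
  cases P with
  | zero => 
    change lam D A (0 + Q) = 0 + _
    rw [zero_add, zero_add]
  | some x₁ y₁ h₁ =>
    cases Q with
    | zero => 
      change lam D A (_ + 0) = _ + 0
      rw [add_zero, add_zero]
    | some x₂ y₂ h₂ =>
      rcases add_cases h2 h₁ h₂ with ⟨hx, hy, h⟩ | ⟨-, ℓ, x₃, y₃, E1, E0, hx₃, hy₃, h₃, h⟩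
      · rw [h]
        subst hx
        subst hy
        simp only [lam, map_neg]
        ring
      · rw [h]
        simp only [lam]
        rw [← add_div]
        congr 1
        have d0 := congrArg D E0
        have d1 := congrArg D E1
        have d2 : D x₃ = 2 * ℓ * D ℓ - D x₁ - D x₂ := by
          rw [hx₃]; simp [pow_two]; ring
        have d3 : D y₃ = -(D y₁ + D ℓ * (x₃ - x₁) + ℓ * (D x₃ - D x₁)) := by
          rw [hy₃]; simp; ring
        simp only [Derivation.leibniz, map_add, map_sub, smul_eq_mul, pow_two] at d0 d1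
        rw [d3, d2, hy₃, hx₃]
        have hy2 : y₂ = y₁ + ℓ * (x₂ - x₁) := by linear_combination E0
        have hdy2 : D y₂ = D y₁ + (ℓ * (D x₂ - D x₁) + (x₂ - x₁) * D ℓ) := by
          linear_combination d0
        rw [hdy2] at d1 ⊢
        rw [hy2] at d1 E1 ⊢
        linear_combination ℓ * d1 - 4 * D ℓ * E1

end lam

end Pool.Agent.Helper44.MW
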