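import Mathlib
import Pool.Agent.Helper44.MW.Lam

/-!
Semilinear scaling maps `(x, y) ↦ (u² φ(x), u³ φ(y))` between the groups of points of the curves
`y² = x³ + A²` and `y² = x³ + B²`, `B² = u⁶ φ(A)²`.
-/

namespace Pool.Agent.Helper44.MW

open Pool.Agent.Helper44

section

variable {K L : Type*} [Field K] [Field L]

lemma nonsingular_iff' (A x y : K) : (mordell (A ^ 2)).toAffine.Nonsingular x y ↔
    y ^ 2 = x ^ 3 + A ^ 2 ∧ (3 * x ^ 2 ≠ 0 ∨ 2 * y ≠ 0) := by
  rw [WeierstrassCurve.Affine.nonsingular_iff, mordell_equation]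
  simp only [mordell]
  constructor
  · rintro ⟨h, h'⟩
    refine ⟨h, ?_⟩
    rcases h' with h' | h'
    · left
      intro h0
      apply h'
      linear_combination -h0
    · right
      intro h0
      apply h'
      linear_combination h0
  · rintro ⟨h, h'⟩
    refine ⟨h, ?_⟩
    rcases h' with h' | h'
    · left
      intro h0
      apply h'
      linear_combination -h0
    · right
      intro h0
      apply h'
      linear_combination h0

lemma nonsingular_map (φ : K →+* L) {u : L} (hu : u ≠ 0) {A : K} {B : L}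
    (hB : B ^ 2 = u ^ 6 * φ A ^ 2) {x y : K} (h : (mordell (A ^ 2)).toAffine.Nonsingular x y) :
    (mordell (B ^ 2)).toAffine.Nonsingular (u ^ 2 * φ x) (u ^ 3 * φ y) := by
  rw [nonsingular_iff'] at h ⊢
  refine ⟨?_, ?_⟩
  · have := congrArg φ h.1
    simp only [map_add, map_pow] at this
    rw [hB]
    linear_combination u ^ 6 * this
  · rcases h.2 with h' | h'
    · left
      have h'' := (map_ne_zero φ).2 h'
      simp only [map_mul, map_pow, map_ofNat] at h''
      have : 3 * (u ^ 2 * φ x) ^ 2 = u ^ 4 * (3 * φ x ^ 2) := by ring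
      rw [this]
      exact mul_ne_zero (pow_ne_zero _ hu) h''
    · right
      have h'' := (map_ne_zero φ).2 h'
      simp only [map_mul, map_ofNat] at h''
      have : 2 * (u ^ 3 * φ y) = u ^ 3 * (2 * φ y) := by ring
      rw [this]
      exact mul_ne_zero (pow_ne_zero _ hu) h''

/-- The underlying function of `mapPt`. -/
noncomputable def mapFun (φ : K →+* L) (u : L) (hu : u ≠ 0) {A : K} {B : L}
    (hB : B ^ 2 = u ^ 6 * φ A ^ 2) : Pt A → Pt B
  | .zero => .zero
  | .some x y h => .some (u ^ 2 * φ x) (u ^ 3 * φ y) (nonsingular_map φ hu hB h)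

variable [DecidableEq K] [DecidableEq L]

lemma mapFun_add (φ : K →+* L) (u : L) (hu : u ≠ 0) {A : K} {B : L}
    (hB : B ^ 2 = u ^ 6 * φ A ^ 2) (h2 : (2 : K) ≠ 0) (P Q : Pt A) :
    mapFun φ u hu hB (P + Q) = mapFun φ u hu hB P + mapFun φ u hu hB Q := by
  have h2' : (2 : L) ≠ 0 := by
    have := (map_ne_zero φ).2 h2
    rwa [map_ofNat] at this
  cases P with
  | zero =>
    change mapFun φ u hu hB (0 + Q) = 0 + _
    rw [zero_add, zero_add]
  | some x₁ y₁ h₁ =>
    cases Q with
    | zero =>
      change mapFun φ u hu hB (_ + 0) = _ + 0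
      rw [add_zero, add_zero]
    | some x₂ y₂ h₂ =>
      rcases add_cases h2 h₁ h₂ with ⟨hx, hy, h⟩ | ⟨hn, ℓ, x₃, y₃, E1, E0, hx₃, hy₃, h₃, h⟩
      · rw [h]
        rcases add_cases h2' (nonsingular_map φ hu hB h₁) (nonsingular_map φ hu hB h₂) with
          ⟨-, -, h'⟩ | ⟨hn', -⟩
        · simp only [mapFun]
          rw [h']
          rfl
        · exact absurd ⟨by rw [hx], by rw [hy, map_neg]; ring⟩ hn'
      · rw [h]
        rcases add_cases h2' (nonsingular_map φ hu hB h₁) (nonsingular_map φ hu hB h₂) with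
          ⟨hx, hy, -⟩ | ⟨-, ℓ', x₃', y₃', E1', E0', hx₃', hy₃', h₃', h'⟩
        · exfalso
          apply hn
          constructor
          · exact φ.injective (mul_left_cancel₀ (pow_ne_zero 2 hu) hx)
          · apply φ.injective
            rw [map_neg]
            apply mul_left_cancel₀ (pow_ne_zero 3 hu)
            rw [hy]; ring
        · simp only [mapFun]
          rw [h']
          have hℓ : ℓ' = u * φ ℓ := by
            have e0 := congrArg φ E0
            have e1 := congrArg φ E1
            simp only [map_sub, map_mul, map_add, map_pow] at e0 e1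
            by_cases hx : φ x₂ = φ x₁
            · have hy : φ y₁ + φ y₂ ≠ 0 := by
                intro h0
                apply hn
                refine ⟨(φ.injective hx).symm, φ.injective ?_⟩
                rw [map_neg]; linear_combination h0
              have : (ℓ' - u * φ ℓ) * (u ^ 3 * (φ y₁ + φ y₂)) = 0 := by
                linear_combination E1' - u ^ 4 * e1
              rcases mul_eq_zero.1 this with h | h
              · exact sub_eq_zero.1 h
              · exact absurd h (mul_ne_zero (pow_ne_zero _ hu) hy)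
            · have : (ℓ' - u * φ ℓ) * (u ^ 2 * (φ x₂ - φ x₁)) = 0 := by
                linear_combination -E0' + u ^ 3 * e0
              rcases mul_eq_zero.1 this with h | h
              · exact sub_eq_zero.1 h
              · exact absurd h (mul_ne_zero (pow_ne_zero _ hu) (sub_ne_zero.2 hx))
          have ex : u ^ 2 * φ x₃ = x₃' := by
            rw [hx₃', hℓ, hx₃]; simp only [map_sub, map_pow]; ring
          have ey : u ^ 3 * φ y₃ = y₃' := by
            rw [hy₃', ← ex, hℓ, hy₃]
            simp only [map_sub, map_mul, map_add, map_neg]; ring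
          subst ex
          subst ey
          rfl

/-- The homomorphism `(x, y) ↦ (u² φ(x), u³ φ(y))`. -/
noncomputable def mapPt (φ : K →+* L) (u : L) (hu : u ≠ 0) {A : K} {B : L}
    (hB : B ^ 2 = u ^ 6 * φ A ^ 2) (h2 : (2 : K) ≠ 0) : Pt A →+ Pt B where
  toFun := mapFun φ u hu hB
  map_zero' := rfl
  map_add' := mapFun_add φ u hu hB h2

lemma mapPt_some (φ : K →+* L) (u : L) (hu : u ≠ 0) {A : K} {B : L}
    (hB : B ^ 2 = u ^ 6 * φ A ^ 2) (h2 : (2 : K) ≠ 0) {x y : K}
    (h : (mordell (A ^ 2)).toAffine.Nonsingular x y) :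
    mapPt φ u hu hB h2 (.some x y h) =
      .some (u ^ 2 * φ x) (u ^ 3 * φ y) (nonsingular_map φ hu hB h) := rfl

lemma mapPt_injective (φ : K →+* L) (u : L) (hu : u ≠ 0) {A : K} {B : L}
    (hB : B ^ 2 = u ^ 6 * φ A ^ 2) (h2 : (2 : K) ≠ 0) :
    Function.Injective (mapPt φ u hu hB h2) := by
  rw [injective_iff_map_eq_zero]
  intro P hP
  cases P with
  | zero => rfl
  | some x y h => exact absurd hP (WeierstrassCurve.Affine.Point.some_ne_zero _)

omit [DecidableEq K] in
/-- Extensionality for affine points. -/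
lemma some_congr {A x y x' y' : K} {h : (mordell (A ^ 2)).toAffine.Nonsingular x y}
    {h' : (mordell (A ^ 2)).toAffine.Nonsingular x' y'} (hx : x = x') (hy : y = y') :
    (WeierstrassCurve.Affine.Point.some x y h : Pt A) = .some x' y' h' := by
  subst hx
  subst hy
  rfl

end

end Pool.Agent.Helper44.MW
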