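import Mathlib

/-!
The derivation `d/dt` on the field of rational functions.
-/

namespace Pool.Agent.Helper44.MW

open Polynomial

variable {k : Type*} [Field k]

/-- notation for the embedding of polynomials. -/
noncomputable abbrev ι (f : k[X]) : RatFunc k := algebraMap k[X] (RatFunc k) f

lemma ι_ne_zero {f : k[X]} (h : f ≠ 0) : ι f ≠ 0 := by
  simpa [ι] using h

/-- The quotient rule. -/
noncomputable def quotD (a b : k[X]) : RatFunc k :=
  (ι (derivative a) * ι b - ι a * ι (derivative b)) / ι b ^ 2

lemma quotD_congr {a b a₁ b₁ : k[X]} (hb : b ≠ 0) (hb₁ : b₁ ≠ 0)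
    (h : ι a / ι b = ι a₁ / ι b₁) : quotD a b = quotD a₁ b₁ := by
  have hb' := ι_ne_zero hb
  have hb₁' := ι_ne_zero hb₁
  rw [div_eq_div_iff hb' hb₁'] at h
  have h0 : a * b₁ = a₁ * b := by
    apply IsFractionRing.injective k[X] (RatFunc k)
    simpa [ι] using h
  have h1 := congrArg (fun f => ι (derivative f)) h0
  simp only [derivative_mul, ι, map_add, map_mul] at h1
  simp only [quotD, ι] at *
  rw [div_eq_div_iff (pow_ne_zero _ hb') (pow_ne_zero _ hb₁')]
  linear_combination (algebraMap k[X] (RatFunc k) b * algebraMap k[X] (RatFunc k) b₁) * h1 -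
    (algebraMap k[X] (RatFunc k) b₁ * algebraMap k[X] (RatFunc k) (derivative b) +
      algebraMap k[X] (RatFunc k) b * algebraMap k[X] (RatFunc k) (derivative b₁)) * h

lemma quotD_num_denom {a b : k[X]} (hb : b ≠ 0) :
    quotD (ι a / ι b).num (ι a / ι b).denom = quotD a b := by
  apply quotD_congr (RatFunc.denom_ne_zero _) hb
  exact RatFunc.num_div_denom _

/-- The derivation `d/dt` of the field of rational functions. -/
noncomputable def ratD (k : Type*) [Field k] : Derivation k (RatFunc k) (RatFunc k) where
  toFun f := quotD f.num f.denom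
  map_add' f g := by
    have hf := RatFunc.num_div_denom f
    have hg := RatFunc.num_div_denom g
    have hf0 := ι_ne_zero (RatFunc.denom_ne_zero f)
    have hg0 := ι_ne_zero (RatFunc.denom_ne_zero g)
    have e : f + g = ι (f.num * g.denom + g.num * f.denom) / ι (f.denom * g.denom) := by
      conv_lhs => rw [← hf, ← hg]
      simp only [ι, map_add, map_mul] at *
      field_simp
    rw [e, quotD_num_denom (mul_ne_zero (RatFunc.denom_ne_zero f) (RatFunc.denom_ne_zero g))]
    simp only [quotD, derivative_add, derivative_mul, ι, map_add, map_mul] at *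
    field_simp
    ring
  map_smul' c f := by
    have hf := RatFunc.num_div_denom f
    have hf0 := ι_ne_zero (RatFunc.denom_ne_zero f)
    have e : c • f = ι (C c * f.num) / ι f.denom := by
      conv_lhs => rw [← hf]
      simp only [ι, map_mul, RatFunc.algebraMap_C, Algebra.smul_def, RatFunc.algebraMap_eq_C] at *
      ring
    rw [e, quotD_num_denom (RatFunc.denom_ne_zero f)]
    simp only [quotD, derivative_mul, derivative_C, ι, map_add, map_mul, RatFunc.algebraMap_C,
      Algebra.smul_def, RatFunc.algebraMap_eq_C, RingHom.id_apply, zero_mul, map_zero, zero_add] at *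
    ring
  map_one_eq_zero' := by
    change quotD (1 : RatFunc k).num (1 : RatFunc k).denom = 0
    simp [quotD]
  leibniz' f g := by
    change quotD (f * g).num (f * g).denom = f • quotD g.num g.denom + g • quotD f.num f.denom
    have hf := RatFunc.num_div_denom f
    have hg := RatFunc.num_div_denom g
    have hf0 := ι_ne_zero (RatFunc.denom_ne_zero f)
    have hg0 := ι_ne_zero (RatFunc.denom_ne_zero g)
    have e : f * g = ι (f.num * g.num) / ι (f.denom * g.denom) := by
      conv_lhs => rw [← hf, ← hg]
      simp only [ι, map_mul] at *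
      field_simp
    rw [e, quotD_num_denom (mul_ne_zero (RatFunc.denom_ne_zero f) (RatFunc.denom_ne_zero g))]
    have key : quotD (f.num * g.num) (f.denom * g.denom) =
        (ι f.num / ι f.denom) * quotD g.num g.denom +
          (ι g.num / ι g.denom) * quotD f.num f.denom := by
      simp only [quotD, derivative_mul, ι, map_add, map_mul] at *
      field_simp
      ring
    rw [key]
    simp only [ι, smul_eq_mul, hf, hg]

lemma ratD_div (a b : k[X]) (hb : b ≠ 0) : ratD k (ι a / ι b) = quotD a b :=
  quotD_num_denom hb

@[simp] lemma ratD_ι (a : k[X]) : ratD k (ι a) = ι (derivative a) := by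
  have := ratD_div a 1 one_ne_zero
  simpa [quotD, ι] using this

end Pool.Agent.Helper44.MW
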