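import Mathlib
import Pool.Agent.Helper44.MW.RatD

/-!
The derivation `d/dt` of the rational function field in characteristic `p`, coefficient maps and
the substitution `t ↦ ζ t`.
-/

namespace Pool.Agent.Helper44.MW

open Polynomial

section maps

variable {k k' : Type*} [Field k] [Field k']

/-- The map on rational functions induced by a map on coefficients. -/
noncomputable def mapC (θ : k →+* k') : RatFunc k →+* RatFunc k' :=
  RatFunc.mapRingHom (Polynomial.mapRingHom θ)
    (nonZeroDivisors_le_comap_nonZeroDivisors_of_injective _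
      (Polynomial.map_injective θ θ.injective))

@[simp] lemma mapC_ι (θ : k →+* k') (f : k[X]) : mapC θ (ι f) = ι (f.map θ) := by
  have := RatFunc.map_apply_div (Polynomial.mapRingHom θ)
    (nonZeroDivisors_le_comap_nonZeroDivisors_of_injective _
      (Polynomial.map_injective θ θ.injective)) f 1
  simpa [mapC, ι, RatFunc.coe_mapRingHom_eq_coe_map] using this

/-- The substitution `t ↦ ζ t`. -/
noncomputable def shift (ζ : k) (hζ : ζ ≠ 0) : RatFunc k →+* RatFunc k :=
  RatFunc.mapRingHom (Polynomial.compRingHom (C ζ * X))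
    (nonZeroDivisors_le_comap_nonZeroDivisors_of_injective _ (by
      rw [injective_iff_map_eq_zero]
      intro f hf
      by_contra h
      have h1 : (f.comp (C ζ * X)).natDegree = f.natDegree := by
        rw [natDegree_comp, natDegree_C_mul_X ζ hζ, mul_one]
      have hf' : f.comp (C ζ * X) = 0 := hf
      rw [hf', natDegree_zero] at h1
      obtain ⟨c, rfl⟩ := natDegree_eq_zero.1 h1.symm
      rw [C_comp] at hf'
      exact h hf'))

@[simp] lemma shift_ι (ζ : k) (hζ : ζ ≠ 0) (f : k[X]) :
    shift ζ hζ (ι f) = ι (f.comp (C ζ * X)) := by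
  have := RatFunc.map_apply_div (Polynomial.compRingHom (C ζ * X)) (by
    apply nonZeroDivisors_le_comap_nonZeroDivisors_of_injective
    rw [injective_iff_map_eq_zero]
    intro f hf
    by_contra h
    have h1 : (f.comp (C ζ * X)).natDegree = f.natDegree := by
      rw [natDegree_comp, natDegree_C_mul_X ζ hζ, mul_one]
    have hf' : f.comp (C ζ * X) = 0 := hf
    rw [hf', natDegree_zero] at h1
    obtain ⟨c, rfl⟩ := natDegree_eq_zero.1 h1.symm
    rw [C_comp] at hf'
    exact h hf') f 1
  simpa [shift, ι, RatFunc.coe_mapRingHom_eq_coe_map] using this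

lemma exists_rep (f : RatFunc k) : ∃ a b : k[X], b ≠ 0 ∧ f = ι a / ι b :=
  ⟨f.num, f.denom, RatFunc.denom_ne_zero f, (RatFunc.num_div_denom f).symm⟩

lemma ratD_mapC (θ : k →+* k') (f : RatFunc k) :
    ratD k' (mapC θ f) = mapC θ (ratD k f) := by
  obtain ⟨a, b, hb, rfl⟩ := exists_rep f
  have hb' : b.map θ ≠ 0 := (Polynomial.map_ne_zero_iff θ.injective).2 hb
  rw [map_div₀, mapC_ι, mapC_ι, ratD_div _ _ hb, ratD_div _ _ hb']
  simp only [quotD, map_div₀, map_sub, map_mul, map_pow, mapC_ι, derivative_map]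

lemma ratD_shift (ζ : k) (hζ : ζ ≠ 0) (f : RatFunc k) :
    ratD k (shift ζ hζ f) = ι (C ζ) * shift ζ hζ (ratD k f) := by
  obtain ⟨a, b, hb, rfl⟩ := exists_rep f
  have hb' : b.comp (C ζ * X) ≠ 0 := by
    intro h0
    have := (map_ne_zero (shift ζ hζ)).2 (ι_ne_zero hb)
    rw [shift_ι, h0] at this
    exact this (by simp [ι])
  rw [map_div₀, shift_ι, shift_ι, ratD_div _ _ hb, ratD_div _ _ hb']
  simp only [quotD, map_div₀, map_sub, map_mul, map_pow, shift_ι, derivative_comp,
    derivative_mul, derivative_C, derivative_X, zero_mul, zero_add, mul_one, ι]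
  ring

end maps

section charp

variable {k : Type*} [Field k] (p : ℕ) [hp : Fact p.Prime] [CharP k p]

lemma ratD_pow_char (h : RatFunc k) : ratD k (h ^ p) = 0 := by
  rw [Derivation.leibniz_pow]
  simp

lemma ratD_mul_pow (c h : RatFunc k) : ratD k (c * h ^ p) = ratD k c * h ^ p := by
  rw [Derivation.leibniz, ratD_pow_char, smul_zero, zero_add, smul_eq_mul, mul_comm]

lemma iter_ratD_mul_pow (j : ℕ) (c h : RatFunc k) :
    (ratD k)^[j] (c * h ^ p) = (ratD k)^[j] c * h ^ p := by
  induction j with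
  | zero => rfl
  | succ j ih =>
    rw [Function.iterate_succ_apply', Function.iterate_succ_apply', ih, ratD_mul_pow]

omit hp [CharP k p] in
lemma iter_ratD_ι (j : ℕ) (a : k[X]) : (ratD k)^[j] (ι a) = ι (derivative^[j] a) := by
  induction j with
  | zero => rfl
  | succ j ih => rw [Function.iterate_succ_apply', Function.iterate_succ_apply', ih, ratD_ι]

lemma exists_rep' (f : RatFunc k) : ∃ a b : k[X], b ≠ 0 ∧ f = ι a * (1 / ι b) ^ p := by
  obtain ⟨a, b, hb, rfl⟩ := exists_rep f
  refine ⟨a * b ^ (p - 1), b, hb, ?_⟩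
  have hb' := ι_ne_zero hb
  have : b ^ p = b ^ (p - 1) * b := by
    rw [← pow_succ, Nat.sub_add_cancel hp.out.one_le]
  have e : ι b ^ p = ι b ^ (p - 1) * ι b := by
    rw [← pow_succ, Nat.sub_add_cancel hp.out.one_le]
  rw [div_pow, one_pow, e]
  simp only [ι, map_mul, map_pow] at *
  field_simp

lemma iter_derivative_char (a : k[X]) : derivative^[p] a = 0 := by
  rw [← factorial_smul_hasseDeriv]
  have : ((p.factorial : ℕ) : k[X]) = 0 := by
    have h : (p.factorial : k) = 0 := (CharP.cast_eq_zero_iff k p _).2 (Nat.dvd_factorial hp.out.pos le_rfl)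
    rw [← map_natCast (C : k →+* k[X]), h, map_zero]
  simp [this]

lemma iter_ratD_char (f : RatFunc k) : (ratD k)^[p] f = 0 := by
  obtain ⟨a, b, hb, rfl⟩ := exists_rep' p f
  rw [iter_ratD_mul_pow, iter_ratD_ι, iter_derivative_char]
  simp [ι]

lemma exists_pow_of_ratD_eq_zero [PerfectRing k p] {f : RatFunc k} (h : ratD k f = 0) :
    ∃ g, f = g ^ p := by
  obtain ⟨a, b, hb, rfl⟩ := exists_rep' p f
  rw [ratD_mul_pow, ratD_ι] at h
  have hb' : (1 / ι b) ^ p ≠ 0 := pow_ne_zero _ (one_div_ne_zero (ι_ne_zero hb))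
  have h1 : ι (derivative a) = 0 := (mul_eq_zero.1 h).resolve_right hb'
  have h2 : derivative a = 0 := by
    by_contra h0
    exact ι_ne_zero h0 h1
  have h3 := expand_contract p h2 hp.out.ne_zero
  rw [polynomial_expand_eq] at h3
  refine ⟨ι ((contract p a).map (frobeniusEquiv k p).symm) * (1 / ι b), ?_⟩
  rw [mul_pow]
  congr 1
  conv_lhs => rw [← h3]
  simp [ι]

/-- The logarithmic derivative is a `p`-curvature solution: `D^(p-1)(u) = -u^p` for `u = f'/f`. -/
def LogD (p : ℕ) (f : RatFunc k) : Prop :=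
  (ratD k)^[p - 1] (ratD k f / f) = -(ratD k f / f) ^ p

lemma iter_ratD_add (j : ℕ) (f g : RatFunc k) :
    (ratD k)^[j] (f + g) = (ratD k)^[j] f + (ratD k)^[j] g := by
  induction j with
  | zero => rfl
  | succ j ih => rw [Function.iterate_succ_apply', ih, map_add, Function.iterate_succ_apply',
      Function.iterate_succ_apply']

lemma iter_ratD_zero (j : ℕ) : (ratD k)^[j] (0 : RatFunc k) = 0 := by
  induction j with
  | zero => rfl
  | succ j ih => rw [Function.iterate_succ_apply', ih, map_zero]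

lemma iter_ratD_neg (j : ℕ) (f : RatFunc k) :
    (ratD k)^[j] (-f) = -(ratD k)^[j] f := by
  induction j with
  | zero => rfl
  | succ j ih => rw [Function.iterate_succ_apply', ih, map_neg, Function.iterate_succ_apply']

variable {p}

lemma LogD.mul {f g : RatFunc k} (hf0 : f ≠ 0) (hg0 : g ≠ 0) (hf : LogD p f) (hg : LogD p g) :
    LogD p (f * g) := by
  have e : ratD k (f * g) / (f * g) = ratD k f / f + ratD k g / g := by
    rw [Derivation.leibniz, smul_eq_mul, smul_eq_mul]
    field_simp
    ring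
  unfold LogD at *
  rw [e, iter_ratD_add, hf, hg, add_pow_char]
  ring

lemma LogD.inv {f : RatFunc k} (hf0 : f ≠ 0) (hf : LogD p f) :
    LogD p f⁻¹ := by
  have e : ratD k (f⁻¹) / f⁻¹ = -(ratD k f / f) := by
    rw [Derivation.leibniz_inv, smul_eq_mul]
    field_simp
  unfold LogD at *
  have h2 : (-(ratD k f / f)) ^ p = -(ratD k f / f) ^ p := by
    have h := sub_pow_char (p := p) (0 : RatFunc k) (ratD k f / f)
    rwa [zero_pow hp.out.ne_zero, zero_sub, zero_sub] at h
  rw [e, iter_ratD_neg, hf, h2]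

lemma LogD.const (c : k) : LogD p (ι (C c)) := by
  unfold LogD
  rw [ratD_ι, derivative_C]
  simp [ι, zero_pow hp.out.ne_zero]

lemma iter_inv_linear (α : k) (j : ℕ) :
    (ratD k)^[j] (1 / ι (X - C α)) = (-1) ^ j * (j.factorial : RatFunc k) / ι (X - C α) ^ (j + 1) := by
  have hu : ι (X - C α) ≠ 0 := ι_ne_zero (X_sub_C_ne_zero α)
  have hD : ratD k (ι (X - C α)) = 1 := by
    rw [ratD_ι]; simp [ι]
  induction j with
  | zero => simp
  | succ j ih =>
    rw [Function.iterate_succ_apply', ih]
    have e : (-1) ^ j * (j.factorial : RatFunc k) / ι (X - C α) ^ (j + 1) =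
        ι (C ((-1) ^ j * (j.factorial : k))) * (ι (X - C α) ^ (j + 1))⁻¹ := by
      rw [div_eq_mul_inv]
      congr 1
      simp [ι]
    rw [e, Derivation.leibniz, ratD_ι, derivative_C, Derivation.leibniz_inv, Derivation.leibniz_pow,
      hD]
    simp only [smul_eq_mul, Nat.factorial_succ, Nat.cast_mul, Nat.cast_add, Nat.cast_one,
      nsmul_eq_mul, ι, map_zero, mul_zero, add_zero, map_mul, map_pow, map_neg, map_one,
      map_natCast, Nat.add_sub_cancel, mul_one]
    simp only [ι] at hu
    field_simp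
    ring

lemma factorial_pred : (((p - 1).factorial : ℕ) : RatFunc k) = -1 := by
  have h := ZMod.wilsons_lemma p
  have := congrArg (ZMod.castHom (dvd_refl p) (RatFunc k)) h
  rwa [map_natCast, map_neg, map_one] at this

lemma LogD.linear (h2 : 2 < p) (α : k) : LogD p (ι (X - C α)) := by
  have hD : ratD k (ι (X - C α)) = 1 := by
    rw [ratD_ι]; simp [ι]
  unfold LogD
  rw [hD, iter_inv_linear, factorial_pred, Nat.sub_add_cancel hp.out.one_le]
  have hodd : Even (p - 1) := hp.out.even_sub_one (by omega)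
  rw [hodd.neg_one_pow, div_pow, one_pow]
  ring

lemma LogD.ofPoly [IsAlgClosed k] (h2 : 2 < p) (a : k[X]) (ha : a ≠ 0) : LogD p (ι a) := by
  have h := (IsAlgClosed.splits a).eq_prod_roots
  rw [h]
  have hlc : a.leadingCoeff ≠ 0 := leadingCoeff_ne_zero.2 ha
  have key : ∀ s : Multiset k, LogD p (ι ((s.map (X - C ·)).prod)) := by
    intro s
    induction s using Multiset.induction_on with
    | empty =>
      have := LogD.const (p := p) (1 : k)
      simpa using this
    | cons α s ih =>
      rw [Multiset.map_cons, Multiset.prod_cons]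
      have e : ι ((X - C α) * (s.map (X - C ·)).prod) =
        ι (X - C α) * ι ((s.map (X - C ·)).prod) := by simp [ι]
      rw [e]
      refine LogD.mul (ι_ne_zero (X_sub_C_ne_zero α)) (ι_ne_zero ?_) (LogD.linear h2 α) ih
      exact (monic_multiset_prod_of_monic _ _ fun b _ => monic_X_sub_C b).ne_zero
  have e : ι (C a.leadingCoeff * (a.roots.map (X - C ·)).prod) =
    ι (C a.leadingCoeff) * ι ((a.roots.map (X - C ·)).prod) := by simp [ι]
  rw [e]
  refine LogD.mul (ι_ne_zero (C_ne_zero.2 hlc)) (ι_ne_zero ?_) (LogD.const _) (key _)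
  exact (monic_multiset_prod_of_monic _ _ fun b _ => monic_X_sub_C b).ne_zero

lemma logD_of_algClosed [IsAlgClosed k] (h2 : 2 < p) (f : RatFunc k) (hf : f ≠ 0) : LogD p f := by
  obtain ⟨a, b, hb, rfl⟩ := exists_rep f
  have ha : a ≠ 0 := by
    rintro rfl
    simp [ι] at hf
  rw [div_eq_mul_inv]
  exact LogD.mul (ι_ne_zero ha) (inv_ne_zero (ι_ne_zero hb)) (LogD.ofPoly h2 a ha)
    (LogD.inv (ι_ne_zero hb) (LogD.ofPoly h2 b hb))

lemma iter_ratD_mapC {k' : Type*} [Field k'] (θ : k →+* k') (j : ℕ) (f : RatFunc k) :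
    (ratD k')^[j] (mapC θ f) = mapC θ ((ratD k)^[j] f) := by
  induction j with
  | zero => rfl
  | succ j ih => rw [Function.iterate_succ_apply', ih, ratD_mapC, Function.iterate_succ_apply']

theorem logD (h2 : 2 < p) (f : RatFunc k) (hf : f ≠ 0) : LogD p f := by
  let θ := algebraMap k (AlgebraicClosure k)
  have : CharP (AlgebraicClosure k) p := charP_of_injective_algebraMap θ.injective p
  have h := logD_of_algClosed (k := AlgebraicClosure k) h2 (mapC θ f) ((_root_.map_ne_zero _).2 hf)
  unfold LogD at *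
  apply (mapC θ).injective
  rw [← iter_ratD_mapC, map_neg, map_pow, map_div₀, ← ratD_mapC]
  exact h

end charp

end Pool.Agent.Helper44.MW
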