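import Mathlib
import Pool.Agent.Helper44.MW.Map
import Pool.Agent.Helper44.MW.RatP

/-!
Definitions for the curves `y² = x³ + A²`, `A = κ (t ^ N - c)` over `k(t)`.
-/

namespace Pool.Agent.Helper44.MW

open Polynomial Pool.Agent.Helper44

section basic

variable {k : Type*} [Field k]

/-- `A = κ (t ^ N - c)`. -/
noncomputable def AN (κ c : k) (N : ℕ) : RatFunc k := ι (C κ * (X ^ N - C c))

lemma AN_ne_zero {κ c : k} {N : ℕ} (hκ : κ ≠ 0) (hN : 0 < N) : AN κ c N ≠ 0 := by
  apply ι_ne_zero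
  exact mul_ne_zero (C_ne_zero.2 hκ) (X_pow_sub_C_ne_zero hN c)

/-- the height of a point: the height of `y / A`. -/
noncomputable def hgt (A : RatFunc k) (P : Pt A) : ℕ := ht (slopeFun A P)

end basic

section charp

variable (p : ℕ) [hp : Fact p.Prime] [hp3 : Fact (p % 3 = 1)]

include hp hp3 in
lemma seven_le : 7 ≤ p := by
  have h1 := hp.out
  have h2 := hp3.out
  by_contra h
  have : p = 1 ∨ p = 4 := by omega
  rcases this with rfl | rfl
  · exact Nat.not_prime_one h1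
  · revert h1; decide

include hp hp3 in
lemma three_mul_m : 3 * ((p - 1) / 3) = p - 1 := by
  have h2 := hp3.out
  omega

include hp hp3 in
lemma two_ne_zero_of_char (L : Type*) [Field L] [CharP L p] : (2 : L) ≠ 0 := by
  have h := seven_le p
  have : ((2 : ℕ) : L) ≠ 0 := by
    rw [Ne, CharP.cast_eq_zero_iff L p]
    intro h'
    have := Nat.le_of_dvd (by norm_num) h'
    omega
  exact_mod_cast this

include hp hp3 in
lemma three_ne_zero_of_char (L : Type*) [Field L] [CharP L p] : (3 : L) ≠ 0 := by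
  have h := seven_le p
  have : ((3 : ℕ) : L) ≠ 0 := by
    rw [Ne, CharP.cast_eq_zero_iff L p]
    intro h'
    have := Nat.le_of_dvd (by norm_num) h'
    omega
  exact_mod_cast this

variable {K : Type*} [Field K] [CharP K p] [DecidableEq K]

/-- The `p`-Frobenius endomorphism `(x, y) ↦ (x^p / A^(2m), y^p / A^(3m))`, `p = 3m + 1`. -/
noncomputable def frob {A : K} (hA : A ≠ 0) : AddMonoid.End (Pt A) :=
  mapPt (frobenius K p) (A ^ ((p - 1) / 3))⁻¹ (inv_ne_zero (pow_ne_zero _ hA))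
    (by
      rw [frobenius_def, inv_pow, ← pow_mul, ← pow_mul]
      have h := three_mul_m p
      have h7 := seven_le p
      have e : p * 2 = (p - 1) / 3 * 6 + 2 := by omega
      rw [e, pow_add]
      have := pow_ne_zero ((p - 1) / 3 * 6) hA
      field_simp)
    (two_ne_zero_of_char p K)

/-- The automorphism `(x, y) ↦ (u² x, u³ y)` for `u⁶ = 1`. -/
noncomputable def rot {A : K} (u : K) (hu : u ^ 6 = 1) (h2 : (2 : K) ≠ 0) :
    AddMonoid.End (Pt A) :=
  mapPt (RingHom.id K) u (by rintro rfl; simp at hu) (by simp [hu]) h2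

end charp

section ratfunc

variable {k : Type*} [Field k] [DecidableEq (RatFunc k)] {κ c : k} {N : ℕ}

lemma shift_AN {ζ : k} (hζ0 : ζ ≠ 0) (hζ : ζ ^ N = 1) :
    shift ζ hζ0 (AN κ c N) = AN κ c N := by
  rw [AN, shift_ι]
  congr 1
  rw [mul_comp, sub_comp, C_comp, C_comp, X_pow_comp, mul_pow, ← C_pow, hζ]
  simp

/-- The automorphism `t ↦ ζ t` for `ζ ^ N = 1`. -/
noncomputable def sig (κ c : k) (N : ℕ) (h2 : (2 : k) ≠ 0) {ζ : k} (hζ0 : ζ ≠ 0) (hζ : ζ ^ N = 1) :
    AddMonoid.End (Pt (AN κ c N)) :=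
  mapPt (shift ζ hζ0) 1 one_ne_zero (by rw [shift_AN hζ0 hζ]; ring) (two_ne_zero_ratFunc h2)

/-- The automorphism `(x, y) ↦ (ω x, y)` for `ω ^ 3 = 1` (as `rot` with `u = ω ^ 2`). -/
noncomputable def om (κ c : k) (N : ℕ) (h2 : (2 : k) ≠ 0) {w : k} (hw : w ^ 3 = 1) :
    AddMonoid.End (Pt (AN κ c N)) :=
  rot (ι (C w) ^ 2) (by
    rw [← pow_mul]
    have : ι (C w) ^ (2 * 6) = ι (C (w ^ (2 * 6))) := by simp [ι]
    rw [this]
    have : w ^ (2 * 6) = 1 := by
      calc w ^ (2 * 6) = (w ^ 3) ^ 4 := by ring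
        _ = 1 := by rw [hw, one_pow]
    rw [this]; simp [ι]) (two_ne_zero_ratFunc h2)

lemma mapC_AN {k' : Type*} [Field k'] (θ : k →+* k') :
    mapC θ (AN κ c N) = AN (θ κ) (θ c) N := by
  rw [AN, mapC_ι, AN]
  congr 1
  simp

/-- The map on points induced by a field embedding of coefficients. -/
noncomputable def cof {k' : Type*} [Field k'] [DecidableEq (RatFunc k')] (κ c : k) (N : ℕ)
    (h2 : (2 : k) ≠ 0) (θ : k →+* k') {κ' c' : k'} (hκ : θ κ = κ') (hc : θ c = c') :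
    Pt (AN κ c N) →+ Pt (AN κ' c' N) :=
  mapPt (mapC θ) 1 one_ne_zero (by rw [mapC_AN, hκ, hc]; ring) (two_ne_zero_ratFunc h2)

/-- `cof` as an endomorphism, for a map of coefficients fixing `κ` and `c`. -/
noncomputable def cofEnd (κ c : k) (N : ℕ) (h2 : (2 : k) ≠ 0) (θ : k →+* k) (hκ : θ κ = κ)
    (hc : θ c = c) : AddMonoid.End (Pt (AN κ c N)) := cof κ c N h2 θ hκ hc

end ratfunc

end Pool.Agent.Helper44.MW
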